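/-
Problem MP_4adf9f_co, Q1: a projective plane of order `n = 9` with a quasiregular collineation
group of type (E), i.e. of order `n² - √n = 78`, with two point orbits, two line orbits and no
fixed point or line.

The group is `ℤ/13 × S₃`.  Points: the elements of `ℤ/13` and of `ℤ/13 × S₃`, the same for lines; the
incidence is given by the Singer difference set `{0, 1, 3, 9}` modulo 13 and by a
`(13, 6, 9, 1)` relative difference set in `ℤ/13 × S₃` relative to `S₃` (it is the Hughes plane of
order 9).
-/
import Mathlib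

set_option autoImplicit false

namespace Pool.Agent.Results.MP_4adf9f_co.OrderNine

/-! ### The notions of the problem -/

/-- `P`, `L` and `I p l` (the point `p` is on the line `l`) form a projective plane of order `n`:
two different points are on exactly one line, two different lines have exactly one common point,
there are points, each line has `n + 1` points, each point is on `n + 1` lines, and `n ≥ 2`. -/
structure IsProjectivePlane (P L : Type) (I : P → L → Prop) (n : ℕ) : Prop where
  join : ∀ p q : P, p ≠ q → ∃! l : L, I p l ∧ I q l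
  meet : ∀ l m : L, l ≠ m → ∃! p : P, I p l ∧ I p m
  nonempty : Nonempty P
  points : ∀ l : L, Nat.card {p : P // I p l} = n + 1
  lines : ∀ p : P, Nat.card {l : L // I p l} = n + 1
  two_le : 2 ≤ n

/-- The group `Γ`, acting on the points and on the lines, is a quasiregular group of collineations
of type (E) of the plane of order `n`. -/
structure IsTypeE (P L : Type) (I : P → L → Prop) (n : ℕ) (Γ : Type) [Group Γ] [MulAction Γ P]
    [MulAction Γ L] : Prop where
  /-- `Γ` acts by collineations. -/
  collineation : ∀ (γ : Γ) (p : P) (l : L), I (γ • p) (γ • l) ↔ I p l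
  /-- Different elements of `Γ` are different collineations. -/
  faithful : ∀ γ γ' : Γ, (∀ p : P, γ • p = γ' • p) → γ = γ'
  /-- If `γ` fixes a point then it fixes every point of its orbit. -/
  regular_points : ∀ (γ : Γ) (p : P), γ • p = p → ∀ q ∈ MulAction.orbit Γ p, γ • q = q
  /-- If `γ` fixes a line then it fixes every line of its orbit. -/
  regular_lines : ∀ (γ : Γ) (l : L), γ • l = l → ∀ m ∈ MulAction.orbit Γ l, γ • m = m
  /-- `n` is a perfect square and `Γ` has `n² - √n` elements. -/
  card : ∃ k : ℕ, n = k ^ 2 ∧ Nat.card Γ + k = n ^ 2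
  /-- There are two point orbits. -/
  point_orbits : Nat.card (MulAction.orbitRel.Quotient Γ P) = 2
  /-- There are two line orbits. -/
  line_orbits : Nat.card (MulAction.orbitRel.Quotient Γ L) = 2
  /-- No point is fixed by `Γ`. -/
  no_fixed_point : ∀ p : P, ∃ γ : Γ, γ • p ≠ p
  /-- No line is fixed by `Γ`. -/
  no_fixed_line : ∀ l : L, ∃ γ : Γ, γ • l ≠ l

/-! ### The plane and its group -/

/-- The cyclic group of order 13, written multiplicatively. -/
abbrev C : Type := Multiplicative (ZMod 13)

/-- The group `Z_13 x S_3` of order 78. -/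
abbrev G : Type := C × DihedralGroup 3

/-- The element `i` of the cyclic group. -/
abbrev c (i : ZMod 13) : C := Multiplicative.ofAdd i

/-- The Singer difference set `{0,1,3,9}` modulo 13. -/
abbrev S : List C := [c 0, c 1, c 3, c 9]

/-- A `(13,6,9,1)` relative difference set in `Z_13 x S_3` relative to `S_3`. -/
abbrev D : List G :=
  [(c 2, .r 0), (c 4, .r 1), (c 5, .r 2), (c 6, .r 1), (c 7, .sr 0), (c 8, .sr 0),
   (c 10, .r 0), (c 11, .sr 0), (c 12, .r 2)]

/-- Points (and also lines) of the plane. -/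
abbrev X : Type := C ⊕ G

/-- The incidence relation: the first argument is the line, the second the point. -/
def inc : X → X → Prop
  | .inl y, .inl x => x⁻¹ * y ∈ S
  | .inr h, .inl x => x = h.1
  | .inl y, .inr g => y = g.1
  | .inr h, .inr g => h⁻¹ * g ∈ D

theorem S_uniq : ∀ a ∈ S, ∀ b ∈ S, ∀ a' ∈ S, ∀ b' ∈ S, a⁻¹ * b = a'⁻¹ * b' → a = b ∨ a = a' := by
  decide +kernel

theorem S_ex : ∀ z : C, ∃ a ∈ S, ∃ b ∈ S, a⁻¹ * b = z := by
  decide +kernel

theorem D_uniq : ∀ a ∈ D, ∀ b ∈ D, ∀ a' ∈ D, ∀ b' ∈ D, a⁻¹ * b = a'⁻¹ * b' → a = b ∨ a = a' := by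
  decide +kernel

theorem D_ex : ∀ z : G, z.1 ≠ 1 → ∃ a ∈ D, ∃ b ∈ D, a⁻¹ * b = z := by
  decide +kernel

theorem D_ex' : ∀ z : G, z.1 ≠ 1 → ∃ a ∈ D, ∃ b ∈ D, a * b⁻¹ = z := by
  decide +kernel

theorem D_inj : ∀ a ∈ D, ∀ b ∈ D, a.1 = b.1 → a = b := by
  decide +kernel

theorem D_not_S : ∀ a ∈ D, a.1 ∉ S := by
  decide +kernel

theorem S_or_D : ∀ z : C, z ∈ S ∨ ∃ s : DihedralGroup 3, (z, s) ∈ D := by
  decide +kernel

theorem C_ne : ∀ z : C, ∃ w : C, w ≠ z := by
  decide +kernel

/-- Two points lie on at most one common line. -/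
theorem inc_uniq (p q l m : X) (h1 : inc l p) (h2 : inc l q) (h3 : inc m p) (h4 : inc m q) :
    p = q ∨ l = m := by
  rcases p with x1 | g1 <;> rcases q with x2 | g2 <;> rcases l with y1 | k1 <;>
    rcases m with y2 | k2 <;> simp only [inc] at h1 h2 h3 h4
  · have h := S_uniq _ h1 _ h3 _ h2 _ h4 (by group)
    rcases h with h | h
    · right; congr 1; exact mul_left_cancel h
    · left; congr 1; exact inv_injective (mul_right_cancel h)
  · left; rw [h3, h4]
  · left; rw [h1, h2]
  · left; rw [h1, h2]
  · right; rw [h2, h4]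
  · exfalso
    refine D_not_S _ h4 ?_
    rw [Prod.fst_mul, Prod.fst_inv, ← h2, ← h3]
    exact h1
  · exfalso
    refine D_not_S _ h2 ?_
    rw [Prod.fst_mul, Prod.fst_inv, ← h4, ← h1]
    exact h3
  · right; congr 1
    have h := D_inj _ h2 _ h4 (by rw [Prod.fst_mul, Prod.fst_mul, Prod.fst_inv, Prod.fst_inv, ← h1, ← h3])
    exact inv_injective (mul_right_cancel h)
  · right; rw [h1, h3]
  · exfalso
    refine D_not_S _ h3 ?_
    rw [Prod.fst_mul, Prod.fst_inv, ← h1, ← h4]
    exact h2
  · exfalso
    refine D_not_S _ h1 ?_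
    rw [Prod.fst_mul, Prod.fst_inv, ← h3, ← h2]
    exact h4
  · right; congr 1
    have h := D_inj _ h1 _ h3 (by rw [Prod.fst_mul, Prod.fst_mul, Prod.fst_inv, Prod.fst_inv, ← h2, ← h4])
    exact inv_injective (mul_right_cancel h)
  · right; rw [h1, h3]
  · left; congr 1
    have h := D_inj _ h3 _ h4 (by rw [Prod.fst_mul, Prod.fst_mul, ← h1, ← h2])
    exact mul_left_cancel h
  · left; congr 1
    have h := D_inj _ h1 _ h2 (by rw [Prod.fst_mul, Prod.fst_mul, ← h3, ← h4])
    exact mul_left_cancel h
  · have h := D_uniq _ h1 _ h2 _ h3 _ h4 (by group)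
    rcases h with h | h
    · left; congr 1; exact mul_left_cancel h
    · right; congr 1; exact inv_injective (mul_right_cancel h)

/-- Two distinct points are joined by a line. -/
theorem line_ex (p q : X) (h : p ≠ q) : ∃ l : X, inc l p ∧ inc l q := by
  rcases p with x1 | g1 <;> rcases q with x2 | g2
  · obtain ⟨a, ha, b, hb, hab⟩ := S_ex (x1 * x2⁻¹)
    refine ⟨.inl (x1 * a), ?_, ?_⟩
    · simp only [inc]
      rw [inv_mul_cancel_left]; exact ha
    · simp only [inc]
      have : x2⁻¹ * (x1 * a) = b := by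
        rw [← mul_assoc, mul_comm x2⁻¹ x1, ← hab, mul_right_comm, inv_mul_cancel, one_mul]
      rw [this]; exact hb
  · rcases S_or_D (x1⁻¹ * g2.1) with hS | ⟨s, hs⟩
    · exact ⟨.inl g2.1, hS, rfl⟩
    · refine ⟨.inr (g2 * (x1⁻¹ * g2.1, s)⁻¹), ?_, ?_⟩
      · simp only [inc]
        rw [Prod.fst_mul, Prod.fst_inv]
        simp
      · simp only [inc]
        rw [mul_inv_rev, inv_inv, inv_mul_cancel_right]; exact hs
  · rcases S_or_D (x2⁻¹ * g1.1) with hS | ⟨s, hs⟩
    · exact ⟨.inl g1.1, rfl, hS⟩
    · refine ⟨.inr (g1 * (x2⁻¹ * g1.1, s)⁻¹), ?_, ?_⟩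
      · simp only [inc]
        rw [mul_inv_rev, inv_inv, inv_mul_cancel_right]; exact hs
      · simp only [inc]
        rw [Prod.fst_mul, Prod.fst_inv]
        simp
  · by_cases h1 : g1.1 = g2.1
    · exact ⟨.inl g1.1, rfl, h1⟩
    · obtain ⟨a, ha, b, hb, hab⟩ := D_ex (g1⁻¹ * g2) (by
        rw [Prod.fst_mul, Prod.fst_inv]
        intro h2
        exact h1 (inv_mul_eq_one.mp h2))
      refine ⟨.inr (g1 * a⁻¹), ?_, ?_⟩
      · simp only [inc]
        rw [mul_inv_rev, inv_inv, inv_mul_cancel_right]; exact ha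
      · simp only [inc]
        have : (g1 * a⁻¹)⁻¹ * g2 = b := by
          rw [mul_inv_rev, inv_inv, mul_assoc, ← hab, mul_inv_cancel_left]
        rw [this]; exact hb

/-- Two distinct lines meet in a point. -/
theorem point_ex (l m : X) (h : l ≠ m) : ∃ p : X, inc l p ∧ inc m p := by
  rcases l with y1 | k1 <;> rcases m with y2 | k2
  · obtain ⟨a, ha, b, hb, hab⟩ := S_ex (y1⁻¹ * y2)
    refine ⟨.inl (y1 * a⁻¹), ?_, ?_⟩
    · simp only [inc]
      rw [mul_inv_rev, inv_inv, inv_mul_cancel_right]; exact ha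
    · simp only [inc]
      have : (y1 * a⁻¹)⁻¹ * y2 = b := by
        rw [mul_inv_rev, inv_inv, mul_assoc, ← hab, mul_inv_cancel_left]
      rw [this]; exact hb
  · rcases S_or_D (k2.1⁻¹ * y1) with hS | ⟨s, hs⟩
    · exact ⟨.inl k2.1, hS, rfl⟩
    · refine ⟨.inr (k2 * (k2.1⁻¹ * y1, s)), ?_, ?_⟩
      · simp only [inc]
        rw [Prod.fst_mul, mul_inv_cancel_left]
      · simp only [inc]
        rw [inv_mul_cancel_left]; exact hs
  · rcases S_or_D (k1.1⁻¹ * y2) with hS | ⟨s, hs⟩
    · exact ⟨.inl k1.1, rfl, hS⟩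
    · refine ⟨.inr (k1 * (k1.1⁻¹ * y2, s)), ?_, ?_⟩
      · simp only [inc]
        rw [inv_mul_cancel_left]; exact hs
      · simp only [inc]
        rw [Prod.fst_mul, mul_inv_cancel_left]
  · by_cases h1 : k1.1 = k2.1
    · exact ⟨.inl k1.1, rfl, h1⟩
    · obtain ⟨a, ha, b, hb, hab⟩ := D_ex' (k1⁻¹ * k2) (by
        rw [Prod.fst_mul, Prod.fst_inv]
        intro h2
        exact h1 (inv_mul_eq_one.mp h2))
      refine ⟨.inr (k1 * a), ?_, ?_⟩
      · simp only [inc]
        rw [inv_mul_cancel_left]; exact ha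
      · simp only [inc]
        have : k2⁻¹ * (k1 * a) = b := by
          have h3 : k2⁻¹ * k1 = (k1⁻¹ * k2)⁻¹ := by rw [mul_inv_rev, inv_inv]
          rw [← mul_assoc, h3, ← hab, mul_inv_rev, inv_inv, inv_mul_cancel_right]
        rw [this]; exact hb

/-- Membership of a point in a line. -/
@[reducible] def memX : Membership X X := ⟨inc⟩

/-- The projective plane. -/
@[reducible] noncomputable def planeX : @Configuration.ProjectivePlane X X memX :=
  letI := memX
  { exists_point := by
      rintro (y | k)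
      · obtain ⟨w, hw⟩ := C_ne y
        exact ⟨.inr (w, 1), fun h => hw (show w = y from (show y = w from h).symm)⟩
      · obtain ⟨w, hw⟩ := C_ne k.1
        exact ⟨.inl w, fun h => hw h⟩
    exists_line := by
      rintro (x | g)
      · obtain ⟨w, hw⟩ := C_ne x
        exact ⟨.inr (w, 1), fun h => hw (show w = x from (show x = w from h).symm)⟩
      · obtain ⟨w, hw⟩ := C_ne g.1
        exact ⟨.inl w, fun h => hw h⟩
    eq_or_eq := fun {p q l m} h1 h2 h3 h4 => inc_uniq p q l m h1 h2 h3 h4
    mkPoint := fun {l m} h => Classical.choose (point_ex l m h)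
    mkPoint_ax := fun {l m} h => Classical.choose_spec (point_ex l m h)
    mkLine := fun {p q} h => Classical.choose (line_ex p q h)
    mkLine_ax := fun {p q} h => Classical.choose_spec (line_ex p q h)
    exists_config := by
      refine ⟨.inl (c 2), .inl (c 0), .inl (c 12), .inl (c 4), .inl (c 0), .inl (c 1), ?_⟩
      show ¬ ((c 2)⁻¹ * c 0 ∈ S) ∧ ¬ ((c 2)⁻¹ * c 1 ∈ S) ∧ ¬ ((c 0)⁻¹ * c 4 ∈ S) ∧
        ((c 0)⁻¹ * c 0 ∈ S) ∧ ((c 0)⁻¹ * c 1 ∈ S) ∧ ¬ ((c 12)⁻¹ * c 4 ∈ S) ∧
        ((c 12)⁻¹ * c 0 ∈ S) ∧ ¬ ((c 12)⁻¹ * c 1 ∈ S)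
      decide +kernel }

/-- The action of the group on points (and on lines). -/
def act (g : G) : X → X := Sum.map (g.1 * ·) (g * ·)

theorem act_one (x : X) : act 1 x = x := by
  rcases x with x | x <;> simp [act]

theorem act_mul (g h : G) (x : X) : act (g * h) x = act g (act h x) := by
  rcases x with x | x <;> simp [act, mul_assoc]

theorem act_inc (g : G) (l p : X) : inc l p ↔ inc (act g l) (act g p) := by
  rcases l with y | k <;> rcases p with x | h <;> simp only [act, Sum.map_inl, Sum.map_inr, inc]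
  · rw [mul_inv_rev, mul_assoc, inv_mul_cancel_left]
  · rw [Prod.fst_mul, mul_right_inj]
  · rw [Prod.fst_mul, mul_right_inj]
  · rw [mul_inv_rev, mul_assoc, inv_mul_cancel_left]

/-- Quasiregularity. -/
theorem act_quasi (g h : G) (x : X) (hx : act g x = x) : act g (act h x) = act h x := by
  rcases x with x | x
  · have h1 : (Sum.inl (g.1 * x) : X) = Sum.inl x := hx
    have h2 : g.1 = 1 := by simpa using h1
    show (Sum.inl (g.1 * (h.1 * x)) : X) = Sum.inl (h.1 * x)
    rw [h2, one_mul]
  · have h1 : (Sum.inr (g * x) : X) = Sum.inr x := hx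
    have h2 : g = 1 := by simpa using h1
    rw [h2, act_one]

theorem card_G : Nat.card G = 78 := by
  rw [Nat.card_prod, DihedralGroup.nat_card]
  have : Nat.card C = 13 := by
    rw [Nat.card_eq_fintype_card]; rfl
  rw [this]

theorem card_X : Fintype.card X = 91 := by
  have h1 : Fintype.card C = 13 := rfl
  have h2 : Fintype.card G = 78 := by rw [← Nat.card_eq_fintype_card]; exact card_G
  rw [Fintype.card_sum, h1, h2]

theorem order_X : @Configuration.ProjectivePlane.order X X memX planeX = 9 := by
  let _ := memX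
  let _ := planeX
  have h := Configuration.ProjectivePlane.card_points X X
  rw [card_X] at h
  have h1 : Configuration.ProjectivePlane.order X X ≤ 9 := by
    by_contra h2
    push Not at h2
    nlinarith
  have h2 : 9 ≤ Configuration.ProjectivePlane.order X X := by
    by_contra h3
    push Not at h3
    nlinarith
  exact le_antisymm h1 h2


/-- The action. -/
@[reducible] noncomputable def actX : MulAction G X where
  smul := act
  one_smul := act_one
  mul_smul := act_mul

theorem orbits : letI := actX; Nat.card (MulAction.orbitRel.Quotient G X) = 2 := by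
  letI := actX
  have h1 : ∀ x y : X, (MulAction.orbitRel G X) x y ↔ x.isLeft = y.isLeft := by
    intro x y
    rw [MulAction.orbitRel_apply, MulAction.mem_orbit_iff]
    rcases x with x | x <;> rcases y with y | y
    · refine ⟨fun _ => rfl, fun _ => ⟨(x * y⁻¹, 1), ?_⟩⟩
      show (Sum.inl (x * y⁻¹ * y) : X) = Sum.inl x
      rw [inv_mul_cancel_right]
    · constructor
      · rintro ⟨g, hg⟩
        have hg' : (Sum.inr (g * y) : X) = Sum.inl x := hg
        cases hg'
      · intro h; cases h
    · constructor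
      · rintro ⟨g, hg⟩
        have hg' : (Sum.inl (g.1 * y) : X) = Sum.inr x := hg
        cases hg'
      · intro h; cases h
    · refine ⟨fun _ => rfl, fun _ => ⟨x * y⁻¹, ?_⟩⟩
      show (Sum.inr (x * y⁻¹ * y) : X) = Sum.inr x
      rw [inv_mul_cancel_right]
  let f : MulAction.orbitRel.Quotient G X → Bool :=
    Quotient.lift (fun x : X => x.isLeft) (fun x y h => (h1 x y).1 h)
  have hf : Function.Bijective f := by
    constructor
    · intro a b
      refine Quotient.inductionOn₂ a b fun x y hxy => Quotient.sound ((h1 x y).2 hxy)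
    · intro b
      cases b
      · exact ⟨Quotient.mk _ (.inr 1), rfl⟩
      · exact ⟨Quotient.mk _ (.inl 1), rfl⟩
  rw [Nat.card_congr (Equiv.ofBijective f hf), Nat.card_eq_fintype_card, Fintype.card_bool]

theorem nofix (p : X) : ∃ g : G, act g p ≠ p := by
  refine ⟨(c 1, 1), ?_⟩
  rcases p with x | x
  · show (Sum.inl (c 1 * x) : X) ≠ Sum.inl x
    intro h
    have h1 : c 1 * x = x := Sum.inl_injective h
    have h2 : c 1 = 1 := by simpa using h1
    revert h2
    decide +kernel
  · show (Sum.inr ((c 1, 1) * x) : X) ≠ Sum.inr x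
    intro h
    have h1 : ((c 1, 1) : G) * x = x := Sum.inr_injective h
    have h2 : ((c 1, 1) : G) = 1 := by simpa using h1
    revert h2
    decide +kernel

/-- There is a finite projective plane of order 9 with a quasiregular collineation group of type
(E), isomorphic to `ℤ/13 × S₃`. -/
theorem result :
    ∃ (P L : Type) (_ : Finite P) (_ : Finite L) (I : P → L → Prop)
      (_ : MulAction (Multiplicative (ZMod 13) × DihedralGroup 3) P)
      (_ : MulAction (Multiplicative (ZMod 13) × DihedralGroup 3) L),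
      IsProjectivePlane P L I 9 ∧
      IsTypeE P L I 9 (Multiplicative (ZMod 13) × DihedralGroup 3) := by
  refine ⟨X, X, inferInstance, inferInstance, fun p l => inc l p, actX, actX, ?_, ?_⟩
  · refine ⟨?_, ?_, ⟨.inl 1⟩, ?_, ?_, by norm_num⟩
    · intro p q hpq
      obtain ⟨l, hl⟩ := line_ex p q hpq
      refine ⟨l, hl, fun m hm => ?_⟩
      rcases inc_uniq p q m l hm.1 hm.2 hl.1 hl.2 with h | h
      · exact absurd h hpq
      · exact h
    · intro l m hlm
      obtain ⟨p, hp⟩ := point_ex l m hlm
      refine ⟨p, hp, fun q hq => ?_⟩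
      rcases inc_uniq q p l m hq.1 hp.1 hq.2 hp.2 with h | h
      · exact h
      · exact absurd h hlm
    · intro l
      letI := memX
      letI := planeX
      have h := Configuration.ProjectivePlane.pointCount_eq X l
      rw [order_X] at h
      exact h
    · intro p
      letI := memX
      letI := planeX
      have h := Configuration.ProjectivePlane.lineCount_eq X p
      rw [order_X] at h
      exact h
  · letI := actX
    refine ⟨?_, ?_, ?_, ?_, ⟨3, by norm_num, ?_⟩, orbits, orbits, nofix, nofix⟩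
    · intro g p l
      exact (act_inc g l p).symm
    · intro g h hgh
      have h1 : (Sum.inr (g * 1) : X) = Sum.inr (h * 1) := hgh (.inr 1)
      simpa using h1
    · rintro g p hp _ ⟨h, rfl⟩
      exact act_quasi g h p hp
    · rintro g p hp _ ⟨h, rfl⟩
      exact act_quasi g h p hp
    · rw [card_G]; norm_num

end Pool.Agent.Results.MP_4adf9f_co.OrderNine
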